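import Pool.Agent.Q196.IC.Chart

/-! Sets of bilinear forms; the inequality on a manifold. -/

set_option autoImplicit false

open MeasureTheory Module InnerProductSpace
open scoped ENNReal RealInnerProductSpace ContDiff MeasureTheory Manifold Topology

namespace Pool.Agent.Q196.IC

section forms

variable {E : Type*} [NormedAddCommGroup E] [InnerProductSpace ℝ E] [FiniteDimensional ℝ E]

theorem isOpen_pos (V : Submodule ℝ E) :
    IsOpen {H : E →L[ℝ] E →L[ℝ] ℝ | ∀ v ∈ V, v ≠ 0 → 0 < H v v} := by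
  have hK : IsCompact (Metric.sphere (0 : E) 1 ∩ (V : Set E)) :=
    (isCompact_sphere (0 : E) 1).inter_right V.closed_of_finiteDimensional
  have h1 : {H : E →L[ℝ] E →L[ℝ] ℝ | ∀ v ∈ V, v ≠ 0 → 0 < H v v} =
      {H | ∀ v ∈ Metric.sphere (0 : E) 1 ∩ (V : Set E), 0 < H v v} := by
    ext H
    constructor
    · rintro h v ⟨hv, hvV⟩
      refine h v hvV ?_
      rintro rfl
      simp at hv
    · intro h v hv hv0
      have hn : 0 < ‖v‖ := norm_pos_iff.2 hv0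
      have h2 := h (‖v‖⁻¹ • v) ⟨by simp [norm_smul, hn.ne'], V.smul_mem _ hv⟩
      simp only [map_smul, ContinuousLinearMap.smul_apply, smul_eq_mul] at h2
      have h3 : 0 < ‖v‖⁻¹ * ‖v‖⁻¹ := by positivity
      have h4 : ‖v‖⁻¹ * (‖v‖⁻¹ * H v v) = (‖v‖⁻¹ * ‖v‖⁻¹) * H v v := by ring
      rw [h4] at h2
      exact (pos_iff_pos_of_mul_pos h2).1 h3
  rw [h1, isOpen_iff_mem_nhds]
  intro H hH
  have hc : Continuous fun q : (E →L[ℝ] E →L[ℝ] ℝ) × E => q.1 q.2 q.2 :=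
    (continuous_fst.clm_apply continuous_snd).clm_apply continuous_snd
  exact hK.eventually_forall_of_forall_eventually fun v hv =>
    (hc.tendsto (H, v)).eventually_const_lt (hH v hv)

theorem isOpen_neg (V : Submodule ℝ E) :
    IsOpen {H : E →L[ℝ] E →L[ℝ] ℝ | ∀ v ∈ V, v ≠ 0 → H v v < 0} := by
  have h := (isOpen_pos V).preimage (continuous_const_smul (-1 : ℝ) : Continuous fun H : E →L[ℝ] E →L[ℝ] ℝ => (-1 : ℝ) • H)
  convert h using 1
  ext H
  simp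

/-- positive definite, or negative definite on a plane -/
def good : Set (E →L[ℝ] E →L[ℝ] ℝ) :=
  {H | (∀ v, v ≠ 0 → 0 < H v v) ∨ ∃ V : Submodule ℝ E, finrank ℝ V = 2 ∧
    ∀ v ∈ V, v ≠ 0 → H v v < 0}

theorem isOpen_good : IsOpen (good : Set (E →L[ℝ] E →L[ℝ] ℝ)) := by
  have h1 : (good : Set (E →L[ℝ] E →L[ℝ] ℝ)) =
      {H | ∀ v ∈ (⊤ : Submodule ℝ E), v ≠ 0 → 0 < H v v} ∪
        ⋃ (V : Submodule ℝ E) (_ : finrank ℝ V = 2), {H | ∀ v ∈ V, v ≠ 0 → H v v < 0} := by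
    ext H
    simp [good]
  rw [h1]
  exact (isOpen_pos ⊤).union (isOpen_iUnion fun V => isOpen_iUnion fun _ => isOpen_neg V)

theorem good_invariant {H H' : E →L[ℝ] E →L[ℝ] ℝ} {L : E →L[ℝ] E} (hL : Function.Bijective L)
    (h : ∀ a b, H a b = H' (L a) (L b)) (hH : H ∈ (good : Set (E →L[ℝ] E →L[ℝ] ℝ))) :
    H' ∈ (good : Set (E →L[ℝ] E →L[ℝ] ℝ)) := by
  rcases hH with hp | ⟨V, hV, hn⟩
  · left
    intro v hv
    obtain ⟨w, rfl⟩ := hL.2 v
    rw [← h]
    exact hp w (by rintro rfl; simp at hv)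
  · right
    refine ⟨V.map (L : E →ₗ[ℝ] E), ?_, ?_⟩
    · rw [← hV]
      exact (LinearEquiv.finrank_eq (Submodule.equivMapOfInjective (L : E →ₗ[ℝ] E) hL.1 V)).symm
    · rintro _ ⟨w, hw, rfl⟩ hw0
      have := hn w hw (by rintro rfl; simp at hw0)
      rwa [h] at this

/-- nondegenerate -/
def ndg (H : E →L[ℝ] E →L[ℝ] ℝ) : Prop := ∀ v, (∀ w, H v w = 0) → v = 0

theorem ndg_iff (H : E →L[ℝ] E →L[ℝ] ℝ) : ndg H ↔ LinearMap.det (opOf H) ≠ 0 := by
  constructor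
  · intro h h0
    obtain ⟨x, hx, hx0⟩ := (LinearMap.bot_lt_ker_of_det_eq_zero h0).ne'
      |> (Submodule.ne_bot_iff _).1
    refine hx0 (h x fun w => ?_)
    rw [← opOf_inner, LinearMap.mem_ker.1 hx, inner_zero_left]
  · intro h v hv
    have h1 : opOf H v = 0 := by
      refine ext_inner_right ℝ fun w => ?_
      rw [opOf_inner, hv, inner_zero_left]
    have h2 : Function.Injective (opOf H) := by
      have h3 : IsUnit (LinearMap.det (opOf H)) := isUnit_iff_ne_zero.2 h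
      have h4 := (LinearMap.isUnit_iff_isUnit_det (opOf H)).2 h3
      exact ((Module.End.isUnit_iff _).1 h4).1
    exact h2 (by rw [h1, map_zero])

theorem ndg_invariant {H H' : E →L[ℝ] E →L[ℝ] ℝ} {L : E →L[ℝ] E} (hL : Function.Bijective L)
    (h : ∀ a b, H a b = H' (L a) (L b)) (hH : ndg H) : ndg H' := by
  intro v hv
  obtain ⟨w, rfl⟩ := hL.2 v
  have := hH w fun b => by rw [h]; exact hv _
  rw [this, map_zero]

theorem continuous_det_opOf : Continuous fun H : E →L[ℝ] E →L[ℝ] ℝ => LinearMap.det (opOf H) := by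
  classical
  let b := stdOrthonormalBasis ℝ E
  have h1 : ∀ H : E →L[ℝ] E →L[ℝ] ℝ, LinearMap.det (opOf H) =
      (Matrix.of fun i j => H (b j) (b i)).det := by
    intro H
    rw [← LinearMap.det_toMatrix b.toBasis]
    congr 1
    ext i j
    simp only [LinearMap.toMatrix_apply, OrthonormalBasis.coe_toBasis,
      OrthonormalBasis.coe_toBasis_repr_apply, OrthonormalBasis.repr_apply_apply, Matrix.of_apply]
    rw [real_inner_comm, opOf_inner]
  simp_rw [h1]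
  refine Continuous.matrix_det ?_
  refine continuous_matrix fun i j => ?_
  simp only [Matrix.of_apply]
  exact (continuous_id.clm_apply continuous_const).clm_apply continuous_const

theorem measurable_bad {G : Set (E →L[ℝ] E →L[ℝ] ℝ)} (hG : IsOpen G) :
    MeasurableSet[borel _] {H : E →L[ℝ] E →L[ℝ] ℝ | ¬ (ndg H ∧ H ∈ G)} := by
  letI : MeasurableSpace (E →L[ℝ] E →L[ℝ] ℝ) := borel _
  haveI : BorelSpace (E →L[ℝ] E →L[ℝ] ℝ) := ⟨rfl⟩
  have h1 : IsOpen {H : E →L[ℝ] E →L[ℝ] ℝ | ndg H ∧ H ∈ G} := by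
    have h2 : IsOpen {H : E →L[ℝ] E →L[ℝ] ℝ | ndg H} := by
      simp_rw [ndg_iff]
      exact isOpen_ne_fun continuous_det_opOf continuous_const
    exact h2.inter hG
  exact h1.isClosed_compl.measurableSet

end forms

section dets

variable {m : ℕ}

theorem det_opOf_eq (H : EuclideanSpace ℝ (Fin m) →L[ℝ] EuclideanSpace ℝ (Fin m) →L[ℝ] ℝ) :
    LinearMap.det (opOf H) = (Matrix.of fun i j : Fin m =>
      H (EuclideanSpace.single i 1) (EuclideanSpace.single j 1)).det := by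
  classical
  let b := EuclideanSpace.basisFun (Fin m) ℝ
  rw [← LinearMap.det_toMatrix b.toBasis, ← Matrix.det_transpose]
  congr 1
  ext i j
  simp only [Matrix.transpose_apply, LinearMap.toMatrix_apply, OrthonormalBasis.coe_toBasis,
    OrthonormalBasis.coe_toBasis_repr_apply, OrthonormalBasis.repr_apply_apply, Matrix.of_apply]
  rw [real_inner_comm, opOf_inner]
  simp [b]

theorem det_gr_eq {W : Type*} [NormedAddCommGroup W] [InnerProductSpace ℝ W]
    [FiniteDimensional ℝ W] (A : EuclideanSpace ℝ (Fin m) →L[ℝ] W) :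
    LinearMap.det (gr A : EuclideanSpace ℝ (Fin m) →ₗ[ℝ] EuclideanSpace ℝ (Fin m)) =
      (Matrix.of fun i j : Fin m =>
        ⟪A (EuclideanSpace.single i 1), A (EuclideanSpace.single j 1)⟫).det := by
  classical
  let b := EuclideanSpace.basisFun (Fin m) ℝ
  rw [← LinearMap.det_toMatrix b.toBasis, ← Matrix.det_transpose]
  congr 1
  ext i j
  simp only [Matrix.transpose_apply, LinearMap.toMatrix_apply, OrthonormalBasis.coe_toBasis,
    OrthonormalBasis.coe_toBasis_repr_apply, OrthonormalBasis.repr_apply_apply, Matrix.of_apply]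
  rw [real_inner_comm]
  simp [b, gr_inner]

end dets

section man

variable {m : ℕ} {M : Type*} [TopologicalSpace M] [ChartedSpace (EuclideanSpace ℝ (Fin m)) M]
  [IsManifold (𝓡 m) ∞ M]
  {W : Type*} [NormedAddCommGroup W] [InnerProductSpace ℝ W] [FiniteDimensional ℝ W]
  [MeasurableSpace W] [BorelSpace W]

theorem man_ineq {f : M → ℝ} {F : M → W} (hf : ContMDiff (𝓡 m) 𝓘(ℝ, ℝ) ∞ f)
    (hF : ContMDiff (𝓡 m) 𝓘(ℝ, W) ∞ F)
    (hi : ∀ x, Function.Injective (fderiv ℝ (rd F x) (extChartAt (𝓡 m) x x)))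
    {B : Set W} (hB : MeasurableSet B)
    {G : Set (EuclideanSpace ℝ (Fin m) →L[ℝ] EuclideanSpace ℝ (Fin m) →L[ℝ] ℝ)} (hG : IsOpen G)
    (hinv : ∀ (H H' : EuclideanSpace ℝ (Fin m) →L[ℝ] EuclideanSpace ℝ (Fin m) →L[ℝ] ℝ)
      (L : EuclideanSpace ℝ (Fin m) →L[ℝ] EuclideanSpace ℝ (Fin m)), Function.Bijective L →
      (∀ a b, H a b = H' (L a) (L b)) → H ∈ G → H' ∈ G)
    (P : ℕ → M × Set (EuclideanSpace ℝ (Fin m)))
    (hP : ∀ i, MeasurableSet (P i).2 ∧ (P i).2 ⊆ (extChartAt (𝓡 m) (P i).1).target)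
    (hc : ∀ x, ∃ i, ∃ z ∈ (P i).2, (extChartAt (𝓡 m) (P i).1).symm z = x) :
    volume {v | v ∈ B ∧ ∃ x : M,
        fderiv ℝ (rd (fun y => f y + ⟪v, F y⟫) x) (extChartAt (𝓡 m) x x) = 0 ∧
        ¬ (ndg (fderiv ℝ (fderiv ℝ (rd (fun y => f y + ⟪v, F y⟫) x)) (extChartAt (𝓡 m) x x)) ∧
          fderiv ℝ (fderiv ℝ (rd (fun y => f y + ⟪v, F y⟫) x)) (extChartAt (𝓡 m) x x) ∈ G)} ≤
      ∑' i, ∫⁻ z in (P i).2, dn (rd f (P i).1) (rd F (P i).1) B Gᶜ z := by
  set Q : Set (EuclideanSpace ℝ (Fin m) →L[ℝ] EuclideanSpace ℝ (Fin m) →L[ℝ] ℝ) :=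
    {H | ¬ (ndg H ∧ H ∈ G)} with hQ
  have hloc : ∀ i, volume {v | ∃ z ∈ (P i).2, v ∈ crs (rd f (P i).1) (rd F (P i).1) B Q z} ≤
      ∫⁻ z in (P i).2, dn (rd f (P i).1) (rd F (P i).1) B Gᶜ z := by
    intro i
    refine local_ineq (target_open (P i).1) (rd_smooth hf _) (rd_smooth hF _)
      (fun z hz => rd_imm hF hi _ hz) hB (measurable_bad hG) ?_ (hP i).1 (hP i).2
    intro H hH hHG
    by_contra h0
    exact hH ⟨(ndg_iff H).2 h0, not_not.1 hHG⟩
  refine le_trans (measure_mono ?_) ((measure_iUnion_le _).trans (ENNReal.tsum_le_tsum hloc))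
  rintro v ⟨hvB, x, h0, hx⟩
  obtain ⟨i, z, hz, hzx⟩ := hc x
  refine Set.mem_iUnion.2 ⟨i, z, hz, hvB, ?_⟩
  have hs : ContMDiff (𝓡 m) 𝓘(ℝ, ℝ) ∞ (fun y => f y + ⟪v, F y⟫) := by
    have h1 : ContMDiff (𝓡 m) 𝓘(ℝ, ℝ) ∞ (fun y => (innerSL ℝ v) (F y)) :=
      (innerSL ℝ v).contMDiff.comp hF
    exact hf.add h1
  have hzt := (hP i).2 hz
  obtain ⟨h1, h2⟩ := crit_chart hs (P i).1 hzt hzx h0
  have hrd : rd (m := m) (fun y => f y + ⟪v, F y⟫) (P i).1 =
      hv (rd f (P i).1) (rd F (P i).1) v := rfl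
  rw [hrd] at h1 h2
  refine ⟨h1, ?_⟩
  rintro ⟨hn, hg⟩
  have hsx : (extChartAt (𝓡 m) (P i).1).symm z ∈ (extChartAt (𝓡 m) x).source := by
    rw [hzx]; exact mem_extChartAt_source x
  have hb := tr_bij (P i).1 x hzt hsx
  exact hx ⟨ndg_invariant hb h2 hn, hinv _ _ _ hb h2 hg⟩

end man

end Pool.Agent.Q196.IC
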