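import Mathlib

/-! Linear algebra for the total curvature of critical points: a determinant and a projection. -/

set_option autoImplicit false

open MeasureTheory Module InnerProductSpace
open scoped ENNReal RealInnerProductSpace

namespace Pool.Agent.Q196.IC

section det

variable {E W : Type*} [AddCommGroup E] [Module ℝ E] [FiniteDimensional ℝ E]
  [AddCommGroup W] [Module ℝ W] [FiniteDimensional ℝ W]

/-- the shear `(x, y) ↦ (x, R x + y)` -/
def shear (R : E →ₗ[ℝ] W) : E × W →ₗ[ℝ] E × W :=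
  (LinearMap.fst ℝ E W).prod (R ∘ₗ LinearMap.fst ℝ E W + LinearMap.snd ℝ E W)

theorem shear_apply (R : E →ₗ[ℝ] W) (p : E × W) : shear R p = (p.1, R p.1 + p.2) := rfl

theorem abs_one_of_sq {d : ℝ} (h : d * d = 1) : |d| = 1 := by
  have : |d| * |d| = 1 := by rw [← abs_mul, h, abs_one]
  nlinarith [abs_nonneg d]

theorem abs_det_shear (R : E →ₗ[ℝ] W) : |LinearMap.det (shear R)| = 1 := by
  have h1 : shear R ∘ₗ shear (-R) = LinearMap.id := by
    refine LinearMap.ext fun p => ?_
    simp [shear_apply]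
  let c : (E × W) ≃ₗ[ℝ] (E × W) := (LinearEquiv.neg ℝ).prodCongr (LinearEquiv.refl ℝ W)
  have h2 : LinearMap.det (shear (-R)) = LinearMap.det (shear R) := by
    rw [← LinearMap.det_conj (shear R) c]
    congr 1
    refine LinearMap.ext fun p => ?_
    simp [shear_apply, c]
  have h3 : LinearMap.det (shear R) * LinearMap.det (shear R) = 1 := by
    rw [← h2, h2, ← h2]
    nth_rewrite 1 [h2]
    rw [← LinearMap.det_comp, h1, LinearMap.det_id]
  exact abs_one_of_sq h3

theorem abs_det_of_swap (T J : E × W →ₗ[ℝ] E × W) (H : E →ₗ[ℝ] E)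
    (hJ : J ∘ₗ J = LinearMap.id) (h1 : ∀ x, (J (T (x, 0))).1 = -H x)
    (h2 : ∀ w, J (T (0, w)) = (0, w)) :
    |LinearMap.det T| = |LinearMap.det H| := by
  let R : E →ₗ[ℝ] W := LinearMap.snd ℝ E W ∘ₗ J ∘ₗ T ∘ₗ LinearMap.inl ℝ E W
  have h3 : J ∘ₗ T = (LinearMap.prodMap (-H) LinearMap.id) ∘ₗ shear R := by
    apply LinearMap.prod_ext
    · refine LinearMap.ext fun x => ?_
      refine Prod.ext ?_ ?_
      · simpa [shear_apply] using h1 x
      · simp [shear_apply, R]
    · refine LinearMap.ext fun w => ?_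
      simpa [shear_apply] using h2 w
  have h4 : |LinearMap.det J| = 1 := by
    apply abs_one_of_sq
    rw [← LinearMap.det_comp, hJ, LinearMap.det_id]
  have h5 : |LinearMap.det (J ∘ₗ T)| = |LinearMap.det H| := by
    rw [h3, LinearMap.det_comp, abs_mul, abs_det_shear, mul_one, LinearMap.det_prodMap,
      LinearMap.det_id, mul_one]
    have h6 : -H = (-1 : ℝ) • H := by simp
    rw [h6, LinearMap.det_smul, abs_mul, abs_pow, abs_neg, abs_one, one_pow, one_mul]
  rw [← h5, LinearMap.det_comp, abs_mul, h4, one_mul]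

end det

section proj

variable {E W : Type*} [NormedAddCommGroup E] [InnerProductSpace ℝ E] [FiniteDimensional ℝ E]
  [NormedAddCommGroup W] [InnerProductSpace ℝ W] [FiniteDimensional ℝ W]

/-- the adjoint of a linear map between Euclidean spaces -/
noncomputable def adj (A : E →L[ℝ] W) : W →L[ℝ] E := ContinuousLinearMap.adjoint A

theorem adj_inner (A : E →L[ℝ] W) (w : W) (u : E) : ⟪adj A w, u⟫ = ⟪w, A u⟫ :=
  ContinuousLinearMap.adjoint_inner_left A u w

theorem adj_inner' (A : E →L[ℝ] W) (w : W) (u : E) : ⟪u, adj A w⟫ = ⟪A u, w⟫ :=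
  ContinuousLinearMap.adjoint_inner_right A u w

theorem adj_bdd : IsBoundedLinearMap ℝ (fun A : E →L[ℝ] W => adj A) where
  map_add x y := by simp [adj]
  map_smul c x := by simp [adj]
  bound := ⟨1, one_pos, fun x => by simp [adj]⟩

theorem adj_contDiff : ContDiff ℝ (⊤ : ℕ∞) (fun A : E →L[ℝ] W => adj A) := adj_bdd.contDiff

/-- the Gram operator -/
noncomputable def gr (A : E →L[ℝ] W) : E →L[ℝ] E := (adj A) ∘L A

theorem gr_inner (A : E →L[ℝ] W) (u v : E) : ⟪gr A u, v⟫ = ⟪A u, A v⟫ := by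
  simp only [gr, ContinuousLinearMap.comp_apply]
  exact adj_inner A (A u) v

theorem gr_unit {A : E →L[ℝ] W} (hA : Function.Injective A) : IsUnit (gr A) := by
  rw [ContinuousLinearMap.isUnit_iff_bijective]
  have hi : Function.Injective (gr A) := by
    rw [injective_iff_map_eq_zero]
    intro u hu
    have h1 : ⟪A u, A u⟫ = 0 := by rw [← gr_inner, hu, inner_zero_left]
    have h2 : A u = 0 := inner_self_eq_zero.1 h1
    exact hA (by rw [h2, map_zero])
  exact ⟨hi, (LinearMap.injective_iff_surjective (f := (gr A : E →ₗ[ℝ] E))).1 hi⟩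

/-- the inverse of the Gram operator -/
noncomputable def gi (A : E →L[ℝ] W) : E →L[ℝ] E := Ring.inverse (gr A)

theorem gr_gi {A : E →L[ℝ] W} (hA : Function.Injective A) (u : E) : gr A (gi A u) = u := by
  have h := Ring.mul_inverse_cancel _ (gr_unit hA)
  exact congrArg (fun L : E →L[ℝ] E => L u) h

theorem gi_gr {A : E →L[ℝ] W} (hA : Function.Injective A) (u : E) : gi A (gr A u) = u := by
  have h := Ring.inverse_mul_cancel _ (gr_unit hA)
  exact congrArg (fun L : E →L[ℝ] E => L u) h

theorem gi_contDiffAt {A : E →L[ℝ] W} (hA : Function.Injective A) :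
    ContDiffAt ℝ (⊤ : ℕ∞) (fun A : E →L[ℝ] W => gi A) A := by
  have h1 : ContDiff ℝ (⊤ : ℕ∞) (fun A : E →L[ℝ] W => gr A) :=
    adj_contDiff.clm_comp contDiff_id
  obtain ⟨x, hx⟩ := gr_unit hA
  have h2 : ContDiffAt ℝ (⊤ : ℕ∞) Ring.inverse (gr A) := by
    rw [← hx]
    exact contDiffAt_ringInverse ℝ x
  exact h2.comp A h1.contDiffAt

/-- the orthogonal projection of `v` to the affine subspace `adj A v = - b` -/
noncomputable def pr (A : E →L[ℝ] W) (b : E) (v : W) : W := v - A (gi A (adj A v + b))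

theorem adj_pr {A : E →L[ℝ] W} (hA : Function.Injective A) (b : E) (v : W) :
    adj A (pr A b v) = -b := by
  have h : adj A (A (gi A (adj A v + b))) = adj A v + b := gr_gi hA _
  rw [pr, map_sub, h]
  abel

theorem pr_of_crit {A : E →L[ℝ] W} (b : E) {v : W} (hv : adj A v = -b) : pr A b v = v := by
  rw [pr, hv]
  simp

theorem pr_add {A : E →L[ℝ] W} (hA : Function.Injective A) (b : E) (v : W) (s : E) :
    pr A b (v + A s) = pr A b v := by
  have h : adj A (A s) = gr A s := rfl
  have h2 : adj A (v + A s) + b = (adj A v + b) + gr A s := by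
    rw [map_add, h]; abel
  rw [pr, pr, h2, map_add (gi A) (adj A v + b), gi_gr hA, map_add A (gi A (adj A v + b))]
  abel

/-- the swap of the domain and of the image of `A` -/
noncomputable def sw (A : E →L[ℝ] W) : E × W →L[ℝ] E × W :=
  ((adj A) ∘L (ContinuousLinearMap.snd ℝ E W)).prod
    (ContinuousLinearMap.snd ℝ E W + A ∘L (gi A) ∘L
      (ContinuousLinearMap.fst ℝ E W - (adj A) ∘L (ContinuousLinearMap.snd ℝ E W)))

theorem sw_apply (A : E →L[ℝ] W) (p : E × W) :
    sw A p = (adj A p.2, p.2 + A (gi A (p.1 - adj A p.2))) := rfl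

theorem sw_sw {A : E →L[ℝ] W} (hA : Function.Injective A) (p : E × W) :
    sw A (sw A p) = p := by
  have h1 : adj A (A (gi A (p.1 - adj A p.2))) = p.1 - adj A p.2 := gr_gi hA _
  have h2 : adj A (p.2 + A (gi A (p.1 - adj A p.2))) = p.1 := by
    rw [map_add, h1]; abel
  rw [sw_apply A (sw A p), sw_apply]
  simp only
  rw [h2]
  refine Prod.ext rfl ?_
  simp only
  have h3 : adj A p.2 - p.1 = -(p.1 - adj A p.2) := by abel
  rw [h3, map_neg, map_neg]
  abel

end proj

end Pool.Agent.Q196.IC
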