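import Pool.Agent.Q196.IC.Ineq

/-! Critical points and Hessians in two charts. -/

set_option autoImplicit false

open MeasureTheory Module InnerProductSpace
open scoped ENNReal RealInnerProductSpace ContDiff MeasureTheory Manifold Topology

namespace Pool.Agent.Q196.IC

/-- the second derivative of a composition at a critical point -/
theorem snd_comp {E F : Type*} [NormedAddCommGroup E] [NormedSpace ℝ E]
    [NormedAddCommGroup F] [NormedSpace ℝ F] {u : F → ℝ} {τ : E → F} {z : E}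
    (hu : ContDiffAt ℝ ∞ u (τ z)) (hτ : ContDiffAt ℝ ∞ τ z) (h0 : fderiv ℝ u (τ z) = 0) (a b : E) :
    fderiv ℝ (fderiv ℝ (u ∘ τ)) z a b =
      fderiv ℝ (fderiv ℝ u) (τ z) (fderiv ℝ τ z a) (fderiv ℝ τ z b) := by
  have h1 : ∀ᶠ y in 𝓝 z, ContDiffAt ℝ 1 u (τ y) :=
    hτ.continuousAt.eventually ((hu.of_le (by norm_cast)).eventually (by simp))
  have h2 : ∀ᶠ y in 𝓝 z, ContDiffAt ℝ 1 τ y :=
    (hτ.of_le (by norm_cast)).eventually (by simp)
  have h3 : fderiv ℝ (u ∘ τ) =ᶠ[𝓝 z] fun y => (fderiv ℝ u (τ y)) ∘L (fderiv ℝ τ y) := by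
    filter_upwards [h1, h2] with y hy1 hy2
    exact fderiv_comp y (hy1.differentiableAt (by simp)) (hy2.differentiableAt (by simp))
  have h4 : DifferentiableAt ℝ (fderiv ℝ u) (τ z) :=
    (hu.fderiv_right (m := 1) (by norm_cast)).differentiableAt (by simp)
  have h5 : DifferentiableAt ℝ (fderiv ℝ τ) z :=
    (hτ.fderiv_right (m := 1) (by norm_cast)).differentiableAt (by simp)
  have h6 : HasFDerivAt (fun y => fderiv ℝ u (τ y))
      ((fderiv ℝ (fderiv ℝ u) (τ z)) ∘L (fderiv ℝ τ z)) z :=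
    HasFDerivAt.comp (g := fderiv ℝ u) (f := τ) z h4.hasFDerivAt
      (hτ.differentiableAt (by simp)).hasFDerivAt
  have h7 := h6.clm_comp h5.hasFDerivAt
  rw [h3.fderiv_eq, h7.fderiv]
  simp [h0]

variable {m : ℕ} {M : Type*} [TopologicalSpace M] [ChartedSpace (EuclideanSpace ℝ (Fin m)) M]

/-- the function read in the chart at `c` -/
noncomputable def rd {X : Type*} (h : M → X) (c : M) : EuclideanSpace ℝ (Fin m) → X :=
  fun z => h ((extChartAt (𝓡 m) c).symm z)

variable [IsManifold (𝓡 m) ∞ M]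

theorem rd_smooth {V : Type*} [NormedAddCommGroup V] [NormedSpace ℝ V] {h : M → V}
    (hh : ContMDiff (𝓡 m) 𝓘(ℝ, V) ∞ h) (c : M) :
    ContDiffOn ℝ ∞ (rd h c) (extChartAt (𝓡 m) c).target := by
  have h1 := hh.comp_contMDiffOn (contMDiffOn_extChartAt_symm (I := 𝓡 m) (n := ∞) c)
  exact h1.contDiffOn

theorem target_open (c : M) : IsOpen (extChartAt (𝓡 m) c).target := isOpen_extChartAt_target c

/-- the change of charts -/
noncomputable def tr (c x : M) : EuclideanSpace ℝ (Fin m) → EuclideanSpace ℝ (Fin m) :=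
  fun z => extChartAt (𝓡 m) x ((extChartAt (𝓡 m) c).symm z)

theorem tr_smooth (c x : M) {z : EuclideanSpace ℝ (Fin m)} (hz : z ∈ (extChartAt (𝓡 m) c).target)
    (hx : (extChartAt (𝓡 m) c).symm z ∈ (extChartAt (𝓡 m) x).source) :
    ContDiffAt ℝ ∞ (tr c x) z := by
  have h1 : ContMDiffAt (𝓡 m) 𝓘(ℝ, EuclideanSpace ℝ (Fin m)) ∞ (extChartAt (𝓡 m) x)
      ((extChartAt (𝓡 m) c).symm z) :=
    contMDiffAt_extChartAt' (by rwa [extChartAt_source] at hx)
  have h2 : ContMDiffAt 𝓘(ℝ, EuclideanSpace ℝ (Fin m)) (𝓡 m) ∞ (extChartAt (𝓡 m) c).symm z :=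
    (contMDiffOn_extChartAt_symm (I := 𝓡 m) (n := ∞) c).contMDiffAt ((target_open c).mem_nhds hz)
  exact (h1.comp z h2).contDiffAt

theorem rd_near {X : Type*} (h : M → X) (c x : M) {z : EuclideanSpace ℝ (Fin m)}
    (hz : z ∈ (extChartAt (𝓡 m) c).target)
    (hx : (extChartAt (𝓡 m) c).symm z ∈ (extChartAt (𝓡 m) x).source) :
    rd h c =ᶠ[𝓝 z] (rd h x) ∘ (tr c x) := by
  have h1 : ContinuousAt (extChartAt (𝓡 m) c).symm z := continuousAt_extChartAt_symm'' hz
  filter_upwards [h1.preimage_mem_nhds ((isOpen_extChartAt_source x).mem_nhds hx)] with y hy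
  simp only [rd, tr, Function.comp_apply]
  rw [(extChartAt (𝓡 m) x).left_inv hy]

/-- the derivative of the change of charts is bijective -/
theorem tr_bij (c x : M) {z : EuclideanSpace ℝ (Fin m)} (hz : z ∈ (extChartAt (𝓡 m) c).target)
    (hx : (extChartAt (𝓡 m) c).symm z ∈ (extChartAt (𝓡 m) x).source) :
    Function.Bijective (fderiv ℝ (tr c x) z) := by
  have hz2 : tr c x z ∈ (extChartAt (𝓡 m) x).target := (extChartAt (𝓡 m) x).map_source hx
  have hc : (extChartAt (𝓡 m) x).symm (tr c x z) ∈ (extChartAt (𝓡 m) c).source := by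
    simp only [tr]
    rw [(extChartAt (𝓡 m) x).left_inv hx]
    exact (extChartAt (𝓡 m) c).map_target hz
  have h1 := tr_smooth c x hz hx
  have h2 := tr_smooth x c hz2 hc
  have h3 : (tr x c) ∘ (tr c x) =ᶠ[𝓝 z] id := by
    have h4 : ContinuousAt (extChartAt (𝓡 m) c).symm z := continuousAt_extChartAt_symm'' hz
    filter_upwards [h4.preimage_mem_nhds ((isOpen_extChartAt_source x).mem_nhds hx),
      (target_open c).mem_nhds hz] with y hy hy2
    simp only [tr, Function.comp_apply, id]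
    rw [(extChartAt (𝓡 m) x).left_inv hy, (extChartAt (𝓡 m) c).right_inv hy2]
  have h5 : (fderiv ℝ (tr x c) (tr c x z)) ∘L (fderiv ℝ (tr c x) z) =
      ContinuousLinearMap.id ℝ _ := by
    rw [← fderiv_comp z (h2.differentiableAt (by simp)) (h1.differentiableAt (by simp)),
      h3.fderiv_eq, fderiv_id]
  have hinj : Function.Injective (fderiv ℝ (tr c x) z) := by
    intro a b hab
    have h6 := congrArg (fun L : EuclideanSpace ℝ (Fin m) →L[ℝ] EuclideanSpace ℝ (Fin m) => L a) h5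
    have h7 := congrArg (fun L : EuclideanSpace ℝ (Fin m) →L[ℝ] EuclideanSpace ℝ (Fin m) => L b) h5
    simp only [ContinuousLinearMap.comp_apply, ContinuousLinearMap.id_apply] at h6 h7
    rw [← h6, ← h7, hab]
  exact ⟨hinj, (LinearMap.injective_iff_surjective
    (f := (fderiv ℝ (tr c x) z : EuclideanSpace ℝ (Fin m) →ₗ[ℝ] EuclideanSpace ℝ (Fin m)))).1 hinj⟩

/-- critical points in two charts -/
theorem crit_chart {h : M → ℝ} (hh : ContMDiff (𝓡 m) 𝓘(ℝ, ℝ) ∞ h) (c : M)
    {z : EuclideanSpace ℝ (Fin m)} (hz : z ∈ (extChartAt (𝓡 m) c).target) {x : M}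
    (hx : (extChartAt (𝓡 m) c).symm z = x)
    (h0 : fderiv ℝ (rd h x) (extChartAt (𝓡 m) x x) = 0) :
    fderiv ℝ (rd h c) z = 0 ∧ ∀ a b, fderiv ℝ (fderiv ℝ (rd h c)) z a b =
      fderiv ℝ (fderiv ℝ (rd h x)) (extChartAt (𝓡 m) x x) (fderiv ℝ (tr c x) z a)
        (fderiv ℝ (tr c x) z b) := by
  have hs : (extChartAt (𝓡 m) c).symm z ∈ (extChartAt (𝓡 m) x).source := by
    rw [hx]; exact mem_extChartAt_source x
  have htz : tr c x z = extChartAt (𝓡 m) x x := by simp only [tr]; rw [hx]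
  have h1 := tr_smooth c x hz hs
  have h2 : ContDiffAt ℝ ∞ (rd h x) (tr c x z) :=
    (rd_smooth hh x).contDiffAt ((target_open x).mem_nhds ((extChartAt (𝓡 m) x).map_source hs))
  have h3 := rd_near h c x hz hs
  rw [← htz] at h0 ⊢
  constructor
  · rw [h3.fderiv_eq, fderiv_comp z (h2.differentiableAt (by simp))
      (h1.differentiableAt (by simp)), h0]
    simp
  · intro a b
    rw [h3.fderiv.fderiv_eq]
    exact snd_comp h2 h1 h0 a b

/-- an immersion read in a chart -/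
theorem rd_imm {V : Type*} [NormedAddCommGroup V] [NormedSpace ℝ V] {F : M → V}
    (hF : ContMDiff (𝓡 m) 𝓘(ℝ, V) ∞ F)
    (hi : ∀ x, Function.Injective (fderiv ℝ (rd F x) (extChartAt (𝓡 m) x x))) (c : M)
    {z : EuclideanSpace ℝ (Fin m)} (hz : z ∈ (extChartAt (𝓡 m) c).target) :
    Function.Injective (fderiv ℝ (rd F c) z) := by
  set x := (extChartAt (𝓡 m) c).symm z with hx
  have hs : (extChartAt (𝓡 m) c).symm z ∈ (extChartAt (𝓡 m) x).source := by
    rw [← hx]; exact mem_extChartAt_source x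
  have htz : tr c x z = extChartAt (𝓡 m) x x := by simp only [tr]; rw [← hx]
  have h1 := tr_smooth c x hz hs
  have h2 : ContDiffAt ℝ ∞ (rd F x) (tr c x z) :=
    (rd_smooth hF x).contDiffAt ((target_open x).mem_nhds ((extChartAt (𝓡 m) x).map_source hs))
  rw [(rd_near F c x hz hs).fderiv_eq, fderiv_comp z (h2.differentiableAt (by simp))
      (h1.differentiableAt (by simp))]
  have h3 := hi x
  rw [← htz] at h3
  exact h3.comp (tr_bij c x hz hs).1

end Pool.Agent.Q196.IC
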