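import Pool.Agent.Q196.IC.Loc

/-! The local inequality. -/

set_option autoImplicit false

open MeasureTheory Module InnerProductSpace
open scoped ENNReal RealInnerProductSpace ContDiff MeasureTheory

namespace Pool.Agent.Q196.IC

theorem meas_inter_preimage {X Y : Type*} [TopologicalSpace X] [MeasurableSpace X] [BorelSpace X]
    [TopologicalSpace Y] [MeasurableSpace Y] [BorelSpace Y] {f : X → Y} {s : Set X}
    (hs : MeasurableSet s) (hf : ContinuousOn f s) {t : Set Y} (ht : MeasurableSet t) :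
    MeasurableSet (s ∩ f ⁻¹' t) := by
  have h1 : Measurable (s.restrict f) := (continuousOn_iff_continuous_restrict.1 hf).measurable
  have h2 : MeasurableSet (s.restrict f ⁻¹' t) := h1 ht
  have h3 := hs.subtype_image h2
  convert h3 using 1
  ext x
  simp only [Set.mem_inter_iff, Set.mem_preimage, Set.mem_image, Set.restrict_apply,
    Subtype.exists, exists_and_right, exists_eq_right]
  constructor
  · rintro ⟨hx, hx2⟩
    exact ⟨hx, hx2⟩
  · rintro ⟨hx, hx2⟩
    exact ⟨hx, hx2⟩

section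

variable {E W : Type*} [NormedAddCommGroup E] [InnerProductSpace ℝ E] [FiniteDimensional ℝ E]
  [MeasurableSpace E] [BorelSpace E]
  [NormedAddCommGroup W] [InnerProductSpace ℝ W] [FiniteDimensional ℝ W]
  [MeasurableSpace W] [BorelSpace W]

/-- the Hessian of the perturbed function -/
noncomputable def hs (g : E → ℝ) (φ : E → W) (v : W) (z : E) : E →L[ℝ] E →L[ℝ] ℝ :=
  fderiv ℝ (fderiv ℝ (hv g φ v)) z

/-- the parameters for which `z` is a critical point with Hessian in `Q` -/
def crs (g : E → ℝ) (φ : E → W) (B : Set W) (Q : Set (E →L[ℝ] E →L[ℝ] ℝ)) (z : E) : Set W :=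
  {v | v ∈ B ∧ fderiv ℝ (hv g φ v) z = 0 ∧ hs g φ v z ∈ Q}

/-- the curvature density -/
noncomputable def dn (g : E → ℝ) (φ : E → W) (B : Set W) (Q : Set (E →L[ℝ] E →L[ℝ] ℝ))
    (z : E) : ℝ≥0∞ :=
  (∫⁻ v in crs g φ B Q z, ENNReal.ofReal |LinearMap.det (opOf (hs g φ v z))|
      ∂μHE[finrank ℝ W - finrank ℝ E]) /
    ENNReal.ofReal (Real.sqrt (LinearMap.det (gr (fderiv ℝ φ z) : E →ₗ[ℝ] E)))

/-- the test set in the source -/
def tst (g : E → ℝ) (φ : E → W) (B : Set W) (Q : Set (E →L[ℝ] E →L[ℝ] ℝ)) (S : Set E) :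
    Set (E × W) :=
  {p | p.1 ∈ S ∧ adj (fderiv ℝ φ p.1) p.2 ∈ Metric.ball (0 : E) 1 ∧ qm g φ p ∈ B ∧
    hs g φ (qm g φ p) p.1 ∈ Q}

variable {U : Set E} {g : E → ℝ} {φ : E → W}

theorem hs_eq (hU : IsOpen U) (hg : ContDiffOn ℝ ∞ g U) (hφ : ContDiffOn ℝ ∞ φ U) {z : E}
    (hz : z ∈ U) (v : W) :
    hs g φ v z = fderiv ℝ (fderiv ℝ g) z +
      (ContinuousLinearMap.compL ℝ E W ℝ (innerSL ℝ v)) ∘L fderiv ℝ (fderiv ℝ φ) z := by
  ext a b
  rw [hs, hess_hv hU hg hφ hz]
  rfl

theorem hs_continuousOn (hU : IsOpen U) (hg : ContDiffOn ℝ ∞ g U) (hφ : ContDiffOn ℝ ∞ φ U)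
    (hi : ∀ z ∈ U, Function.Injective (fderiv ℝ φ z)) :
    ContinuousOn (fun p : E × W => hs g φ (qm g φ p) p.1) (U ×ˢ Set.univ) := by
  have h1 : ContinuousOn (qm g φ) (U ×ˢ Set.univ) := fun p hp =>
    (qm_contDiffAt hU hg hφ hp.1 (hi _ hp.1)).continuousAt.continuousWithinAt
  have h2 : ContinuousOn (fun p : E × W => fderiv ℝ (fderiv ℝ g) p.1) (U ×ˢ Set.univ) := by
    intro p hp
    have h3 : ContDiffAt ℝ ∞ (fderiv ℝ (fderiv ℝ g)) p.1 :=
      (cda' hU hg hp.1).fderiv_right (m := ∞) (by norm_cast)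
    exact (h3.continuousAt.comp continuousAt_fst).continuousWithinAt
  have h4 : ContinuousOn (fun p : E × W => fderiv ℝ (fderiv ℝ φ) p.1) (U ×ˢ Set.univ) := by
    intro p hp
    have h3 : ContDiffAt ℝ ∞ (fderiv ℝ (fderiv ℝ φ)) p.1 :=
      (cda' hU hφ hp.1).fderiv_right (m := ∞) (by norm_cast)
    exact (h3.continuousAt.comp continuousAt_fst).continuousWithinAt
  have h5 : ContinuousOn (fun p : E × W =>
      ContinuousLinearMap.compL ℝ E W ℝ (innerSL ℝ (qm g φ p))) (U ×ˢ Set.univ) :=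
    (((ContinuousLinearMap.compL ℝ E W ℝ).continuous).comp
      (innerSL ℝ (E := W)).continuous).comp_continuousOn h1
  have h6 := h2.add (h5.clm_comp h4)
  refine h6.congr ?_
  intro p hp
  exact hs_eq hU hg hφ hp.1 _

theorem tst_measurable (hU : IsOpen U) (hg : ContDiffOn ℝ ∞ g U) (hφ : ContDiffOn ℝ ∞ φ U)
    (hi : ∀ z ∈ U, Function.Injective (fderiv ℝ φ z)) {B : Set W} (hB : MeasurableSet B)
    {Q : Set (E →L[ℝ] E →L[ℝ] ℝ)} (hQ : MeasurableSet[borel _] Q) {S : Set E}
    (hS : MeasurableSet S) (hSU : S ⊆ U) : MeasurableSet (tst g φ B Q S) := by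
  letI : MeasurableSpace (E →L[ℝ] E →L[ℝ] ℝ) := borel _
  haveI : BorelSpace (E →L[ℝ] E →L[ℝ] ℝ) := ⟨rfl⟩
  have hsub : S ×ˢ (Set.univ : Set W) ⊆ U ×ˢ Set.univ := Set.prod_mono hSU subset_rfl
  have h0 : ContinuousOn (cv g φ) (S ×ˢ Set.univ) := fun p hp =>
    (cv_contDiffAt hU hg hφ (hSU hp.1) (hi _ (hSU hp.1))).continuousAt.continuousWithinAt
  have h1 := meas_inter_preimage (hS.prod MeasurableSet.univ) h0
    ((Metric.isOpen_ball (x := (0 : E)) (ε := 1)).measurableSet.prod hB)
  have h2 := meas_inter_preimage (hS.prod MeasurableSet.univ)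
    ((hs_continuousOn hU hg hφ hi).mono hsub) hQ
  convert h1.inter h2 using 1
  ext p
  constructor
  · rintro ⟨a, b, c, d⟩
    exact ⟨⟨⟨a, trivial⟩, b, c⟩, ⟨a, trivial⟩, d⟩
  · rintro ⟨⟨⟨a, -⟩, b, c⟩, -, d⟩
    exact ⟨a, b, c, d⟩

theorem inner_le (hU : IsOpen U) (hg : ContDiffOn ℝ ∞ g U) (hφ : ContDiffOn ℝ ∞ φ U)
    (hi : ∀ z ∈ U, Function.Injective (fderiv ℝ φ z)) {B : Set W}
    {Q R : Set (E →L[ℝ] E →L[ℝ] ℝ)} (hQR : ∀ H ∈ Q, H ∉ R → LinearMap.det (opOf H) = 0)
    {S : Set E} {z : E} (hz : z ∈ S) (hSU : S ⊆ U) :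
    ∫⁻ v, (tst g φ B Q S).indicator
        (fun p => ENNReal.ofReal |LinearMap.det (opOf (hs g φ (qm g φ p) p.1))|) (z, v) ≤
      volume (Metric.ball (0 : E) 1) * dn g φ B R z := by
  classical
  have hzU := hSU hz
  set A := fderiv ℝ φ z with hA
  have hinj : Function.Injective A := hi z hzU
  set c := qm g φ (z, (0 : W)) with hc
  let F : W → ℝ≥0∞ := fun v => ENNReal.ofReal |LinearMap.det (opOf (hs g φ v z))|
  let D : Set (img A) := {t | adj A (t : W) ∈ Metric.ball (0 : E) 1}
  have hperp : ∀ n : (img A)ᗮ, adj A (n : W) = 0 := by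
    intro n
    refine ext_inner_right ℝ fun u => ?_
    rw [adj_inner, inner_zero_left, real_inner_comm]
    exact (Submodule.mem_orthogonal _ _).1 n.2 (A u) ⟨u, rfl⟩
  have hq : ∀ (t : img A) (n : (img A)ᗮ), qm g φ (z, (t : W) + (n : W)) = c + (n : W) := by
    intro t n
    obtain ⟨s, hs⟩ := t.2
    have h1 : (t : W) + (n : W) = (n : W) + A s := by rw [← hs, add_comm]; rfl
    have h2 : qm g φ (z, (t : W) + (n : W)) = pr A (grd g z) ((n : W) + A s) := by rw [← h1]; rfl
    rw [h2, pr_add hinj, hc]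
    have h3 : qm g φ (z, (0 : W)) = pr A (grd g z) 0 := rfl
    rw [h3, pr, pr, hperp n, map_zero]
    abel
  have hcrit : ∀ n : (img A)ᗮ, fderiv ℝ (hv g φ (c + (n : W))) z = 0 := by
    intro n
    rw [crit_iff (da hU hg hzU) (da hU hφ hzU), ← hA, map_add, hperp n, add_zero]
    exact adj_pr hinj _ _
  have hind : ∀ (t : img A) (n : (img A)ᗮ), (tst g φ B Q S).indicator
        (fun p => ENNReal.ofReal |LinearMap.det (opOf (hs g φ (qm g φ p) p.1))|)
          (z, (t : W) + (n : W)) ≤
      D.indicator 1 t * (crs g φ B R z).indicator F (c + (n : W)) := by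
    intro t n
    by_cases hp : (z, (t : W) + (n : W)) ∈ tst g φ B Q S
    · rw [Set.indicator_of_mem hp]
      obtain ⟨-, h1, h2, h3⟩ := hp
      have h4 : t ∈ D := by
        have h5 : adj A ((t : W) + (n : W)) = adj A (t : W) := by rw [map_add, hperp n, add_zero]
        have h6 : adj A ((t : W) + (n : W)) ∈ Metric.ball (0 : E) 1 := h1
        rw [h5] at h6
        exact h6
      rw [hq] at h2
      have h3' : hs g φ (c + (n : W)) z ∈ Q := by
        have := h3
        simp only at this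
        rwa [hq] at this
      by_cases hR : hs g φ (c + (n : W)) z ∈ R
      · have h5 : c + (n : W) ∈ crs g φ B R z := ⟨h2, hcrit n, hR⟩
        rw [Set.indicator_of_mem h4, Set.indicator_of_mem h5, Pi.one_apply, one_mul]
        simp only [hq]
        exact le_rfl
      · have h6 := hQR _ h3' hR
        simp only [hq, h6, abs_zero, ENNReal.ofReal_zero]
        exact bot_le
    · rw [Set.indicator_of_notMem hp]
      exact bot_le
  have hDm : MeasurableSet D := by
    have h1 : Continuous fun t : img A => adj A (t : W) :=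
      (adj A).continuous.comp continuous_subtype_val
    exact (Metric.isOpen_ball.preimage h1).measurableSet
  rw [lintegral_split (img A)]
  calc ∫⁻ q : img A × (img A)ᗮ, (tst g φ B Q S).indicator
        (fun p => ENNReal.ofReal |LinearMap.det (opOf (hs g φ (qm g φ p) p.1))|)
          (z, (q.1 : W) + (q.2 : W)) ∂(volume.prod volume)
      ≤ ∫⁻ q : img A × (img A)ᗮ, D.indicator 1 q.1 *
          (crs g φ B R z).indicator F (c + (q.2 : W)) ∂(volume.prod volume) :=
        lintegral_mono fun q => hind q.1 q.2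
    _ ≤ ∫⁻ t : img A, ∫⁻ n : (img A)ᗮ, D.indicator 1 t *
          (crs g φ B R z).indicator F (c + (n : W)) := lintegral_prod_le _
    _ = ∫⁻ t : img A, D.indicator 1 t *
          ∫⁻ n : (img A)ᗮ, (crs g φ B R z).indicator F (c + (n : W)) := by
        refine lintegral_congr fun t => ?_
        rw [lintegral_const_mul']
        by_cases ht : t ∈ D
        · rw [Set.indicator_of_mem ht]; simp
        · rw [Set.indicator_of_notMem ht]; simp
    _ = volume D * ∫⁻ n : (img A)ᗮ, (crs g φ B R z).indicator F (c + (n : W)) := by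
        rw [lintegral_mul_const _ (measurable_one.indicator hDm), lintegral_indicator_one hDm]
    _ ≤ volume D * ∫⁻ v in crs g φ B R z, F v ∂μHE[finrank ℝ (img A)ᗮ] := by
        gcongr
        exact lintegral_normal_le _ _ _ _
    _ = volume (Metric.ball (0 : E) 1) * dn g φ B R z := by
        have h1 : finrank ℝ (img A)ᗮ = finrank ℝ W - finrank ℝ E := by
          have h2 := (img A).finrank_add_finrank_orthogonal
          rw [finrank_img hinj] at h2
          omega
        have h3 : volume D = volume (Metric.ball (0 : E) 1) /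
          ENNReal.ofReal (Real.sqrt (LinearMap.det (gr A : E →ₗ[ℝ] E))) :=
            volume_tangential hinj _
        rw [h3, dn, h1, ← hA, ENNReal.div_eq_inv_mul, ENNReal.div_eq_inv_mul]
        ring

theorem local_ineq (hU : IsOpen U) (hg : ContDiffOn ℝ ∞ g U) (hφ : ContDiffOn ℝ ∞ φ U)
    (hi : ∀ z ∈ U, Function.Injective (fderiv ℝ φ z)) {B : Set W} (hB : MeasurableSet B)
    {Q R : Set (E →L[ℝ] E →L[ℝ] ℝ)} (hQ : MeasurableSet[borel _] Q)
    (hQR : ∀ H ∈ Q, H ∉ R → LinearMap.det (opOf H) = 0) {S : Set E}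
    (hS : MeasurableSet S) (hSU : S ⊆ U) :
    volume {v | ∃ z ∈ S, v ∈ crs g φ B Q z} ≤ ∫⁻ z in S, dn g φ B R z := by
  classical
  set bad := {v | ∃ z ∈ S, v ∈ crs g φ B Q z} with hbad
  have hsub : Metric.ball (0 : E) 1 ×ˢ bad ⊆ cv g φ '' tst g φ B Q S := by
    rintro ⟨t, v⟩ ⟨ht, z, hz, hv⟩
    have hzU := hSU hz
    have hinj := hi z hzU
    have hcr : adj (fderiv ℝ φ z) v = -grd g z :=
      (crit_iff (da hU hg hzU) (da hU hφ hzU) v).1 hv.2.1
    let s : E := gi (fderiv ℝ φ z) (t + grd g z)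
    have h1 : adj (fderiv ℝ φ z) (v + fderiv ℝ φ z s) = t := by
      have h2 : adj (fderiv ℝ φ z) (fderiv ℝ φ z s) = t + grd g z := gr_gi hinj _
      rw [map_add, h2, hcr]; abel
    have h3 : qm g φ (z, v + fderiv ℝ φ z s) = v := by
      have h4 : qm g φ (z, v + fderiv ℝ φ z s) =
          pr (fderiv ℝ φ z) (grd g z) (v + fderiv ℝ φ z s) := rfl
      rw [h4, pr_add hinj, pr_of_crit _ hcr]
    refine ⟨(z, v + fderiv ℝ φ z s), ⟨hz, ?_, ?_, ?_⟩, ?_⟩
    · simp only
      rw [h1]; exact ht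
    · rw [h3]; exact hv.1
    · rw [h3]; exact hv.2.2
    · refine Prod.ext ?_ ?_
      · exact h1
      · exact h3
  have hT := tst_measurable hU hg hφ hi hB hQ hS hSU
  have hder : ∀ p ∈ tst g φ B Q S,
      HasFDerivWithinAt (cv g φ) (fderiv ℝ (cv g φ) p) (tst g φ B Q S) p := by
    intro p hp
    exact ((cv_contDiffAt hU hg hφ (hSU hp.1) (hi _ (hSU hp.1))).differentiableAt
      (by simp)).hasFDerivAt.hasFDerivWithinAt
  have hvol : volume (Metric.ball (0 : E) 1) * volume bad ≤
      volume (Metric.ball (0 : E) 1) * ∫⁻ z in S, dn g φ B R z := by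
    calc volume (Metric.ball (0 : E) 1) * volume bad
        = (volume.prod volume) (Metric.ball (0 : E) 1 ×ˢ bad) := (Measure.prod_prod _ _).symm
      _ ≤ (volume.prod volume) (cv g φ '' tst g φ B Q S) := measure_mono hsub
      _ ≤ ∫⁻ p in tst g φ B Q S, ENNReal.ofReal |(fderiv ℝ (cv g φ) p).det|
            ∂(volume.prod volume) :=
          addHaar_image_le_lintegral_abs_det_fderiv _ hT hder
      _ = ∫⁻ p in tst g φ B Q S,
            ENNReal.ofReal |LinearMap.det (opOf (hs g φ (qm g φ p) p.1))|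
              ∂(volume.prod volume) := by
          refine setLIntegral_congr_fun hT fun p hp => ?_
          have h := abs_det_cv hU hg hφ hi (hSU hp.1) p.2
          have hp2 : (p.1, p.2) = p := rfl
          rw [hp2] at h
          simp only [h, hs]
      _ = ∫⁻ p, (tst g φ B Q S).indicator
            (fun p => ENNReal.ofReal |LinearMap.det (opOf (hs g φ (qm g φ p) p.1))|) p
              ∂(volume.prod volume) := (lintegral_indicator hT _).symm
      _ ≤ ∫⁻ z, ∫⁻ v, (tst g φ B Q S).indicator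
            (fun p => ENNReal.ofReal |LinearMap.det (opOf (hs g φ (qm g φ p) p.1))|) (z, v) :=
          lintegral_prod_le _
      _ ≤ ∫⁻ z, S.indicator
            (fun z => volume (Metric.ball (0 : E) 1) * dn g φ B R z) z := by
          refine lintegral_mono fun z => ?_
          by_cases hz : z ∈ S
          · rw [Set.indicator_of_mem hz]
            exact inner_le hU hg hφ hi hQR hz hSU
          · rw [Set.indicator_of_notMem hz]
            have h0 : ∀ v, (tst g φ B Q S).indicator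
                (fun p => ENNReal.ofReal |LinearMap.det (opOf (hs g φ (qm g φ p) p.1))|)
                  (z, v) = 0 := fun v => Set.indicator_of_notMem (fun h => hz h.1) _
            simp [h0]
      _ = ∫⁻ z in S, volume (Metric.ball (0 : E) 1) * dn g φ B R z := lintegral_indicator hS _
      _ = volume (Metric.ball (0 : E) 1) * ∫⁻ z in S, dn g φ B R z :=
          lintegral_const_mul' _ _ measure_ball_lt_top.ne
  exact (ENNReal.mul_le_mul_iff_right (Metric.measure_ball_pos volume _ one_pos).ne'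
    measure_ball_lt_top.ne).1 hvol

end

end Pool.Agent.Q196.IC
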