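import Pool.Agent.Q196.IC.Meas

/-! The map `(z, v) ↦ (adjoint of φ'(z) at v, projection of v to the critical affine subspace)`. -/

set_option autoImplicit false

open MeasureTheory Module InnerProductSpace
open scoped ENNReal RealInnerProductSpace ContDiff

namespace Pool.Agent.Q196.IC

section

variable {E W : Type*} [NormedAddCommGroup E] [InnerProductSpace ℝ E] [FiniteDimensional ℝ E]
  [NormedAddCommGroup W] [InnerProductSpace ℝ W] [FiniteDimensional ℝ W]

/-- the perturbed function -/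
noncomputable def hv (g : E → ℝ) (φ : E → W) (v : W) : E → ℝ := fun z => g z + ⟪v, φ z⟫

/-- the gradient -/
noncomputable def grd (g : E → ℝ) (z : E) : E := adj (fderiv ℝ g z) (1 : ℝ)

theorem grd_inner (g : E → ℝ) (z u : E) : ⟪grd g z, u⟫ = fderiv ℝ g z u := by
  rw [grd, adj_inner]
  simp

/-- the operator of a bilinear form -/
noncomputable def opOf (H : E →L[ℝ] E →L[ℝ] ℝ) : E →ₗ[ℝ] E where
  toFun a := adj (H a) (1 : ℝ)
  map_add' a b := by simp [adj]
  map_smul' c a := by simp [adj]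

theorem opOf_inner (H : E →L[ℝ] E →L[ℝ] ℝ) (a b : E) : ⟪opOf H a, b⟫ = H a b := by
  have h : opOf H a = adj (H a) (1 : ℝ) := rfl
  rw [h, adj_inner]
  simp

theorem fderiv_hv {g : E → ℝ} {φ : E → W} {z : E} (hg : DifferentiableAt ℝ g z)
    (hφ : DifferentiableAt ℝ φ z) (v : W) :
    fderiv ℝ (hv g φ v) z = fderiv ℝ g z + (innerSL ℝ v) ∘L fderiv ℝ φ z := by
  have h1 : HasFDerivAt (fun z => (innerSL ℝ v) (φ z)) ((innerSL ℝ v) ∘L fderiv ℝ φ z) z :=
    (innerSL ℝ v).hasFDerivAt.comp z hφ.hasFDerivAt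
  have h2 := hg.hasFDerivAt.add h1
  exact h2.fderiv

theorem crit_iff {g : E → ℝ} {φ : E → W} {z : E} (hg : DifferentiableAt ℝ g z)
    (hφ : DifferentiableAt ℝ φ z) (v : W) :
    fderiv ℝ (hv g φ v) z = 0 ↔ adj (fderiv ℝ φ z) v = -grd g z := by
  rw [fderiv_hv hg hφ]
  constructor
  · intro h
    refine ext_inner_right ℝ fun u => ?_
    have h1 := congrArg (fun L : E →L[ℝ] ℝ => L u) h
    simp only [ContinuousLinearMap.add_apply, ContinuousLinearMap.comp_apply, innerSL_apply_apply,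
      ContinuousLinearMap.zero_apply] at h1
    rw [adj_inner, inner_neg_left, grd_inner]
    linarith
  · intro h
    ext u
    simp only [ContinuousLinearMap.add_apply, ContinuousLinearMap.comp_apply, innerSL_apply_apply,
      ContinuousLinearMap.zero_apply]
    rw [← adj_inner, h, inner_neg_left, grd_inner]
    ring

variable {U : Set E} {g : E → ℝ} {φ : E → W}

theorem cda (hU : IsOpen U) {F : Type*} [NormedAddCommGroup F] [NormedSpace ℝ F] {φ : E → F}
    (hφ : ContDiffOn ℝ ∞ φ U) {z : E} (hz : z ∈ U) : ContDiffAt ℝ ∞ φ z :=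
  hφ.contDiffAt (hU.mem_nhds hz)

theorem cda' (hU : IsOpen U) {F : Type*} [NormedAddCommGroup F] [NormedSpace ℝ F] {φ : E → F}
    (hφ : ContDiffOn ℝ ∞ φ U) {z : E} (hz : z ∈ U) : ContDiffAt ℝ ∞ (fderiv ℝ φ) z :=
  (cda hU hφ hz).fderiv_right (m := ∞) (by norm_cast)

theorem da (hU : IsOpen U) {F : Type*} [NormedAddCommGroup F] [NormedSpace ℝ F] {φ : E → F}
    (hφ : ContDiffOn ℝ ∞ φ U) {z : E} (hz : z ∈ U) : DifferentiableAt ℝ φ z :=
  (cda hU hφ hz).differentiableAt (by simp)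

theorem da' (hU : IsOpen U) {F : Type*} [NormedAddCommGroup F] [NormedSpace ℝ F] {φ : E → F}
    (hφ : ContDiffOn ℝ ∞ φ U) {z : E} (hz : z ∈ U) : DifferentiableAt ℝ (fderiv ℝ φ) z :=
  (cda' hU hφ hz).differentiableAt (by simp)

theorem hess_hv (hU : IsOpen U) (hg : ContDiffOn ℝ ∞ g U) (hφ : ContDiffOn ℝ ∞ φ U) {z : E}
    (hz : z ∈ U) (v : W) (a b : E) :
    fderiv ℝ (fderiv ℝ (hv g φ v)) z a b =
      fderiv ℝ (fderiv ℝ g) z a b + ⟪v, fderiv ℝ (fderiv ℝ φ) z a b⟫ := by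
  have h1 : fderiv ℝ (hv g φ v) =ᶠ[nhds z]
      fun z => fderiv ℝ g z + ContinuousLinearMap.compL ℝ E W ℝ (innerSL ℝ v) (fderiv ℝ φ z) := by
    filter_upwards [hU.mem_nhds hz] with y hy
    rw [fderiv_hv (da hU hg hy) (da hU hφ hy)]
    rfl
  rw [h1.fderiv_eq]
  have h2 : HasFDerivAt
      (fun z => ContinuousLinearMap.compL ℝ E W ℝ (innerSL ℝ v) (fderiv ℝ φ z))
      ((ContinuousLinearMap.compL ℝ E W ℝ (innerSL ℝ v)) ∘L fderiv ℝ (fderiv ℝ φ) z) z :=
    (ContinuousLinearMap.compL ℝ E W ℝ (innerSL ℝ v)).hasFDerivAt.comp z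
      (da' hU hφ hz).hasFDerivAt
  have h3 : fderiv ℝ (fun z => fderiv ℝ g z +
      ContinuousLinearMap.compL ℝ E W ℝ (innerSL ℝ v) (fderiv ℝ φ z)) z =
      fderiv ℝ (fderiv ℝ g) z +
        (ContinuousLinearMap.compL ℝ E W ℝ (innerSL ℝ v)) ∘L fderiv ℝ (fderiv ℝ φ) z :=
    ((da' hU hg hz).hasFDerivAt.add h2).fderiv
  rw [h3]
  rfl

/-- the projection to the critical affine subspace -/
noncomputable def qm (g : E → ℝ) (φ : E → W) (p : E × W) : W :=
  pr (fderiv ℝ φ p.1) (grd g p.1) p.2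

/-- the change of variables -/
noncomputable def cv (g : E → ℝ) (φ : E → W) (p : E × W) : E × W :=
  (adj (fderiv ℝ φ p.1) p.2, qm g φ p)

theorem qm_contDiffAt (hU : IsOpen U) (hg : ContDiffOn ℝ ∞ g U) (hφ : ContDiffOn ℝ ∞ φ U)
    {p : E × W} (hz : p.1 ∈ U) (hi : Function.Injective (fderiv ℝ φ p.1)) :
    ContDiffAt ℝ ∞ (qm g φ) p := by
  have h1 : ContDiffAt ℝ ∞ (fun p : E × W => fderiv ℝ φ p.1) p :=
    (cda' hU hφ hz).comp p contDiffAt_fst
  have h2 : ContDiffAt ℝ ∞ (fun p : E × W => gi (fderiv ℝ φ p.1)) p :=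
    ContDiffAt.comp (g := fun A : E →L[ℝ] W => gi A) (f := fun p : E × W => fderiv ℝ φ p.1) p
      (gi_contDiffAt hi) h1
  have h3 : ContDiffAt ℝ ∞ (fun p : E × W => adj (fderiv ℝ φ p.1)) p :=
    adj_contDiff.contDiffAt.comp p h1
  have h4 : ContDiffAt ℝ ∞ (fun p : E × W => fderiv ℝ g p.1) p :=
    (cda' hU hg hz).comp p contDiffAt_fst
  have h5 : ContDiffAt ℝ ∞ (fun p : E × W => adj (fderiv ℝ g p.1)) p :=
    adj_contDiff.contDiffAt.comp p h4
  have h6 : ContDiffAt ℝ ∞ (fun p : E × W => grd g p.1) p :=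
    h5.clm_apply contDiffAt_const
  have h7 : ContDiffAt ℝ ∞ (fun p : E × W => adj (fderiv ℝ φ p.1) p.2) p :=
    h3.clm_apply contDiffAt_snd
  have h8 : ContDiffAt ℝ ∞ (fun p : E × W => gi (fderiv ℝ φ p.1)
      (adj (fderiv ℝ φ p.1) p.2 + grd g p.1)) p := h2.clm_apply (h7.add h6)
  exact contDiffAt_snd.sub (h1.clm_apply h8)

theorem cv_contDiffAt (hU : IsOpen U) (hg : ContDiffOn ℝ ∞ g U) (hφ : ContDiffOn ℝ ∞ φ U)
    {p : E × W} (hz : p.1 ∈ U) (hi : Function.Injective (fderiv ℝ φ p.1)) :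
    ContDiffAt ℝ ∞ (cv g φ) p := by
  have h1 : ContDiffAt ℝ ∞ (fun p : E × W => fderiv ℝ φ p.1) p :=
    (cda' hU hφ hz).comp p contDiffAt_fst
  have h3 : ContDiffAt ℝ ∞ (fun p : E × W => adj (fderiv ℝ φ p.1)) p :=
    adj_contDiff.contDiffAt.comp p h1
  have h7 : ContDiffAt ℝ ∞ (fun p : E × W => adj (fderiv ℝ φ p.1) p.2) p :=
    h3.clm_apply contDiffAt_snd
  exact h7.prodMk (qm_contDiffAt hU hg hφ hz hi)

theorem qm_inner (hi : ∀ z ∈ U, Function.Injective (fderiv ℝ φ z)) {z : E} (hz : z ∈ U) (v : W)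
    (u : E) : ⟪qm g φ (z, v), fderiv ℝ φ z u⟫ = -fderiv ℝ g z u := by
  rw [← adj_inner]
  have h := adj_pr (hi z hz) (grd g z) v
  have h2 : qm g φ (z, v) = pr (fderiv ℝ φ z) (grd g z) v := rfl
  rw [h2, h, inner_neg_left, grd_inner]

theorem abs_det_cv (hU : IsOpen U) (hg : ContDiffOn ℝ ∞ g U) (hφ : ContDiffOn ℝ ∞ φ U)
    (hi : ∀ z ∈ U, Function.Injective (fderiv ℝ φ z)) {z : E} (hz : z ∈ U) (v : W) :
    |(fderiv ℝ (cv g φ) (z, v)).det| =
      |LinearMap.det (opOf (fderiv ℝ (fderiv ℝ (hv g φ (qm g φ (z, v)))) z))| := by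
  set A := fderiv ℝ φ z with hA
  have hq : DifferentiableAt ℝ (qm g φ) (z, v) :=
    (qm_contDiffAt hU hg hφ (p := (z, v)) hz (hi z hz)).differentiableAt (by simp)
  have hc : DifferentiableAt ℝ (cv g φ) (z, v) :=
    (cv_contDiffAt hU hg hφ (p := (z, v)) hz (hi z hz)).differentiableAt (by simp)
  -- the second component of the derivative
  have hc2 : ∀ y, (fderiv ℝ (cv g φ) (z, v) y).2 = fderiv ℝ (qm g φ) (z, v) y := by
    intro y
    have h1 := (hasFDerivAt_snd (𝕜 := ℝ) (p := cv g φ (z, v))).comp (z, v) hc.hasFDerivAt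
    have h2 : (Prod.snd ∘ cv g φ) = qm g φ := rfl
    rw [h2] at h1
    rw [h1.fderiv]
    rfl
  apply abs_det_of_swap _ (sw A : E × W →ₗ[ℝ] E × W)
  · refine LinearMap.ext fun p => ?_
    exact sw_sw (hi z hz) p
  · intro x
    change adj A (fderiv ℝ (cv g φ) (z, v) (x, 0)).2 = _
    rw [hc2]
    refine ext_inner_right ℝ fun u => ?_
    rw [adj_inner, inner_neg_left, opOf_inner, hess_hv hU hg hφ hz]
    -- differentiate the identity of `qm_inner`
    have h0 : HasFDerivAt (fun y : E => (y, v))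
        ((ContinuousLinearMap.id ℝ E).prod (0 : E →L[ℝ] W)) z :=
      (hasFDerivAt_id z).prodMk (hasFDerivAt_const v z)
    have h1 : HasFDerivAt (fun y : E => qm g φ (y, v))
        ((fderiv ℝ (qm g φ) (z, v)) ∘L ((ContinuousLinearMap.id ℝ E).prod 0)) z :=
      HasFDerivAt.comp (g := qm g φ) (f := fun y : E => (y, v)) z hq.hasFDerivAt h0
    have h2 : HasFDerivAt (fun y : E => fderiv ℝ φ y u)
        ((ContinuousLinearMap.apply ℝ W u) ∘L fderiv ℝ (fderiv ℝ φ) z) z :=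
      (ContinuousLinearMap.apply ℝ W u).hasFDerivAt.comp z (da' hU hφ hz).hasFDerivAt
    have h3 := h1.inner ℝ h2
    have h4 : HasFDerivAt (fun y : E => -fderiv ℝ g y u)
        (-((ContinuousLinearMap.apply ℝ ℝ u) ∘L fderiv ℝ (fderiv ℝ g) z)) z :=
      ((ContinuousLinearMap.apply ℝ ℝ u).hasFDerivAt.comp z (da' hU hg hz).hasFDerivAt).neg
    have h5 : (fun y : E => ⟪qm g φ (y, v), fderiv ℝ φ y u⟫) =ᶠ[nhds z]
        fun y : E => -fderiv ℝ g y u := by
      filter_upwards [hU.mem_nhds hz] with y hy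
      exact qm_inner hi hy v u
    have h6 := h3.unique (h4.congr_of_eventuallyEq h5)
    have h7 := congrArg (fun L : E →L[ℝ] ℝ => L x) h6
    simp only [ContinuousLinearMap.comp_apply, ContinuousLinearMap.prod_apply,
      ContinuousLinearMap.neg_apply, ContinuousLinearMap.apply_apply, fderivInnerCLM_apply,
      ContinuousLinearMap.id_apply, ContinuousLinearMap.zero_apply] at h7
    linarith
  · intro w
    have h0 : HasFDerivAt (fun y : W => (z, y))
        ((0 : W →L[ℝ] E).prod (ContinuousLinearMap.id ℝ W)) v :=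
      (hasFDerivAt_const z v).prodMk (hasFDerivAt_id v)
    have h1 : HasFDerivAt (fun y : W => cv g φ (z, y))
        ((fderiv ℝ (cv g φ) (z, v)) ∘L ((0 : W →L[ℝ] E).prod (ContinuousLinearMap.id ℝ W))) v :=
      HasFDerivAt.comp (g := cv g φ) (f := fun y : W => (z, y)) v hc.hasFDerivAt h0
    have h2 : HasFDerivAt (fun y : W => cv g φ (z, y))
        ((adj A).prod (ContinuousLinearMap.id ℝ W - A ∘L (gi A) ∘L (adj A))) v := by
      have h3 : HasFDerivAt (fun y : W => adj A y) (adj A) v := (adj A).hasFDerivAt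
      have h4 : HasFDerivAt (fun y : W => y - A (gi A (adj A y + grd g z)))
          (ContinuousLinearMap.id ℝ W - A ∘L (gi A) ∘L (adj A)) v :=
        (hasFDerivAt_id v).sub (A.hasFDerivAt.comp v ((gi A).hasFDerivAt.comp v
          (h3.add_const (grd g z))))
      exact h3.prodMk h4
    have h5 := congrArg (fun L : W →L[ℝ] E × W => L w) (h1.unique h2)
    simp only [ContinuousLinearMap.comp_apply, ContinuousLinearMap.prod_apply,
      ContinuousLinearMap.id_apply, ContinuousLinearMap.zero_apply,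
      ContinuousLinearMap.sub_apply] at h5
    change sw A (fderiv ℝ (cv g φ) (z, v) (0, w)) = (0, w)
    rw [h5, sw_apply]
    simp only
    have h6 : adj A (w - A (gi A (adj A w))) = 0 := by
      have h7 : adj A (A (gi A (adj A w))) = adj A w := gr_gi (hi z hz) _
      rw [map_sub, h7, sub_self]
    rw [h6]
    simp

end

end Pool.Agent.Q196.IC
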