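import Pool.Agent.Q196.IC.Alg

/-! Measures of the normal and the tangential part. -/

set_option autoImplicit false

open MeasureTheory Module InnerProductSpace
open scoped ENNReal RealInnerProductSpace MeasureTheory

namespace Pool.Agent.Q196.IC

section

variable {E W : Type*} [NormedAddCommGroup E] [InnerProductSpace ℝ E] [FiniteDimensional ℝ E]
  [MeasurableSpace E] [BorelSpace E]
  [NormedAddCommGroup W] [InnerProductSpace ℝ W] [FiniteDimensional ℝ W]
  [MeasurableSpace W] [BorelSpace W]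

theorem det_eq_of_adj (L M : E →ₗ[ℝ] E) (h : ∀ x u, ⟪L x, u⟫ = ⟪x, M u⟫) :
    LinearMap.det L = LinearMap.det M := by
  classical
  let b := stdOrthonormalBasis ℝ E
  rw [← LinearMap.det_toMatrix b.toBasis L, ← LinearMap.det_toMatrix b.toBasis M,
    ← Matrix.det_transpose]
  congr 1
  ext i j
  simp only [Matrix.transpose_apply, LinearMap.toMatrix_apply, OrthonormalBasis.coe_toBasis,
    OrthonormalBasis.coe_toBasis_repr_apply, OrthonormalBasis.repr_apply_apply]
  rw [real_inner_comm, h]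

/-- the image of `A` -/
noncomputable def img (A : E →L[ℝ] W) : Submodule ℝ W := LinearMap.range (A : E →ₗ[ℝ] W)

theorem finrank_img {A : E →L[ℝ] W} (hA : Function.Injective A) :
    finrank ℝ (img A) = finrank ℝ E := LinearMap.finrank_range_of_inj hA

theorem volume_tangential {A : E →L[ℝ] W} (hA : Function.Injective A) (D : Set E) :
    volume {t : img A | adj A (t : W) ∈ D} =
      volume D / ENNReal.ofReal (Real.sqrt (LinearMap.det (gr A : E →ₗ[ℝ] E))) := by
  classical
  let ι : img A ≃ₗᵢ[ℝ] E := (stdOrthonormalBasis ℝ (img A)).equiv (stdOrthonormalBasis ℝ E)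
    (finCongr (finrank_img hA))
  let L : E →ₗ[ℝ] E := (adj A : W →ₗ[ℝ] E) ∘ₗ (img A).subtype ∘ₗ
    (ι.symm.toLinearEquiv : E →ₗ[ℝ] img A)
  let M : E →ₗ[ℝ] E := (ι.toLinearEquiv : img A →ₗ[ℝ] E) ∘ₗ (LinearMap.rangeRestrict (A : E →ₗ[ℝ] W))
  have hL : ∀ x, L x = adj A ((ι.symm x : img A) : W) := fun x => rfl
  have hM : ∀ u, M u = ι ⟨A u, ⟨u, rfl⟩⟩ := fun u => rfl
  have h1 : ∀ x u, ⟪L x, u⟫ = ⟪x, M u⟫ := by
    intro x u
    rw [hL, hM, adj_inner]
    have h2 : ⟪x, ι ⟨A u, ⟨u, rfl⟩⟩⟫ = ⟪ι.symm x, (⟨A u, ⟨u, rfl⟩⟩ : img A)⟫ := by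
      rw [← ι.inner_map_map (ι.symm x), ι.apply_symm_apply]
    rw [h2]
    rfl
  have h3 : L ∘ₗ M = (gr A : E →ₗ[ℝ] E) := by
    refine LinearMap.ext fun u => ?_
    simp only [LinearMap.comp_apply, hL, hM, ι.symm_apply_apply]
    rfl
  have h4 : LinearMap.det (gr A : E →ₗ[ℝ] E) = LinearMap.det L ^ 2 := by
    rw [← h3, LinearMap.det_comp, ← det_eq_of_adj L M h1, sq]
  have h5 : Real.sqrt (LinearMap.det (gr A : E →ₗ[ℝ] E)) = |LinearMap.det L| := by
    rw [h4, Real.sqrt_sq_eq_abs]
  have h6 : LinearMap.det (gr A : E →ₗ[ℝ] E) ≠ 0 := by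
    intro h0
    obtain ⟨x, hx, hx0⟩ := (LinearMap.bot_lt_ker_of_det_eq_zero h0).ne'
      |> (Submodule.ne_bot_iff _).1
    exact hx0 ((gr_unit hA |> ContinuousLinearMap.isUnit_iff_bijective.1).1
      (by rw [map_zero]; exact hx))
  have h7 : LinearMap.det L ≠ 0 := by
    intro h0; rw [h4, h0] at h6; simp at h6
  have h8 : volume {t : img A | adj A (t : W) ∈ D} = volume (L ⁻¹' D) := by
    have h9 := (ι.symm.measurePreserving)
    rw [← MeasurePreserving.measure_preimage_emb (f := ι.symm) h9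
      ι.symm.toHomeomorph.measurableEmbedding]
    rfl
  rw [h8, MeasureTheory.Measure.addHaar_preimage_linearMap volume h7, h5, abs_inv,
    ENNReal.ofReal_inv_of_pos (abs_pos.2 h7), ENNReal.div_eq_inv_mul]

theorem lintegral_split (K : Submodule ℝ W) (F : W → ℝ≥0∞) :
    ∫⁻ v, F v = ∫⁻ q : K × Kᗮ, F ((q.1 : W) + (q.2 : W)) ∂(volume.prod volume) := by
  have h1 := (K.measurePreserving_measurableEquivProd (0 : W)).symm
  rw [InnerProductSpace.euclideanHausdorffMeasure_eq_volume] at h1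
  rw [← h1.lintegral_comp_emb (K.measurableEquivProd (0 : W)).symm.measurableEmbedding]
  refine lintegral_congr fun q => ?_
  rw [Submodule.measurableEquivProd_symm_apply]
  simp

/-- an integral over the normal space is at most the integral of the indicator over the affine
subspace through `c` for the Hausdorff measure -/
theorem lintegral_normal_le (K : Submodule ℝ W) (c : W) (F : W → ℝ≥0∞) (S : Set W) :
    ∫⁻ n : Kᗮ, S.indicator F (c + (n : W)) ≤ ∫⁻ v in S, F v ∂μHE[finrank ℝ Kᗮ] := by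
  have hj : Isometry (fun n : Kᗮ => c + (n : W)) :=
    (isometry_add_left c).comp isometry_subtype_coe
  have h1 := hj.map_euclideanHausdorffMeasure (d := finrank ℝ Kᗮ)
  have he : MeasurableEmbedding (fun n : Kᗮ => c + (n : W)) :=
    hj.isClosedEmbedding.measurableEmbedding
  have h2 : ∫⁻ n : Kᗮ, S.indicator F (c + (n : W)) =
      ∫⁻ v, S.indicator F v ∂(μHE[finrank ℝ Kᗮ].restrict (Set.range fun n : Kᗮ => c + (n : W))) := by
    rw [← h1, he.lintegral_map, InnerProductSpace.euclideanHausdorffMeasure_eq_volume]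
  rw [h2]
  exact (setLIntegral_le_lintegral _ _).trans (lintegral_indicator_le _ _)

end

end Pool.Agent.Q196.IC
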