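import Pool.Agent.Q196.IC.Form

/-! Forms which are definite on a hyperplane. -/

set_option autoImplicit false

open MeasureTheory Module InnerProductSpace
open scoped ENNReal RealInnerProductSpace ContDiff MeasureTheory Manifold Topology

namespace Pool.Agent.Q196.IC

variable {E : Type*} [NormedAddCommGroup E] [InnerProductSpace ℝ E] [FiniteDimensional ℝ E]

/-- positive or negative definite on a subspace of dimension `k` -/
def defOn (k : ℕ) : Set (E →L[ℝ] E →L[ℝ] ℝ) :=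
  {H | (∃ V : Submodule ℝ E, finrank ℝ V = k ∧ ∀ v ∈ V, v ≠ 0 → 0 < H v v) ∨
    ∃ V : Submodule ℝ E, finrank ℝ V = k ∧ ∀ v ∈ V, v ≠ 0 → H v v < 0}

theorem isOpen_defOn (k : ℕ) : IsOpen (defOn k : Set (E →L[ℝ] E →L[ℝ] ℝ)) := by
  have h1 : (defOn k : Set (E →L[ℝ] E →L[ℝ] ℝ)) =
      (⋃ (V : Submodule ℝ E) (_ : finrank ℝ V = k), {H | ∀ v ∈ V, v ≠ 0 → 0 < H v v}) ∪
        ⋃ (V : Submodule ℝ E) (_ : finrank ℝ V = k), {H | ∀ v ∈ V, v ≠ 0 → H v v < 0} := by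
    ext H
    simp [defOn]
  rw [h1]
  exact (isOpen_iUnion fun V => isOpen_iUnion fun _ => isOpen_pos V).union
    (isOpen_iUnion fun V => isOpen_iUnion fun _ => isOpen_neg V)

theorem defOn_invariant {k : ℕ} {H H' : E →L[ℝ] E →L[ℝ] ℝ} {L : E →L[ℝ] E}
    (hL : Function.Bijective L) (h : ∀ a b, H a b = H' (L a) (L b))
    (hH : H ∈ (defOn k : Set (E →L[ℝ] E →L[ℝ] ℝ))) :
    H' ∈ (defOn k : Set (E →L[ℝ] E →L[ℝ] ℝ)) := by
  rcases hH with ⟨V, hV, hn⟩ | ⟨V, hV, hn⟩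
  · left
    refine ⟨V.map (L : E →ₗ[ℝ] E), ?_, ?_⟩
    · rw [← hV]
      exact (LinearEquiv.finrank_eq (Submodule.equivMapOfInjective (L : E →ₗ[ℝ] E) hL.1 V)).symm
    · rintro _ ⟨w, hw, rfl⟩ hw0
      have := hn w hw (by rintro rfl; simp at hw0)
      rwa [h] at this
  · right
    refine ⟨V.map (L : E →ₗ[ℝ] E), ?_, ?_⟩
    · rw [← hV]
      exact (LinearEquiv.finrank_eq (Submodule.equivMapOfInjective (L : E →ₗ[ℝ] E) hL.1 V)).symm
    · rintro _ ⟨w, hw, rfl⟩ hw0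
      have := hn w hw (by rintro rfl; simp at hw0)
      rwa [h] at this

end Pool.Agent.Q196.IC
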